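import Pool.Agent.X93.BMO.Kernel

/-! The test functions and the lower bound. -/

set_option autoImplicit false
set_option linter.unusedSectionVars false

open MeasureTheory Set Filter Topology Metric
open scoped Real ENNReal ComplexConjugate Pointwise

namespace Pool.Agent.X93.BMO

def Nn (i : ℕ) : ℕ := 4 ^ (i + 11)

lemma Nn_strictMono : StrictMono Nn := by
  intro i j h
  unfold Nn
  exact Nat.pow_lt_pow_right (by norm_num) (by omega)

lemma Nn_ge (i : ℕ) : 4 ^ 11 ≤ Nn i := by
  unfold Nn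
  exact Nat.pow_le_pow_right (by norm_num) (by omega)

lemma Nn_ge_one (i : ℕ) : 1 ≤ Nn i := le_trans (by norm_num) (Nn_ge i)

lemma Nn_ge_real (i : ℕ) : (4194304 : ℝ) ≤ Nn i := by
  have : (4194304 : ℕ) ≤ Nn i := le_trans (by norm_num) (Nn_ge i)
  exact_mod_cast this

lemma Nn_even (i : ℕ) : Even (Nn i) := by
  unfold Nn
  rw [show i + 11 = (i + 10) + 1 by ring, pow_succ]
  exact Even.mul_left (by decide) _

lemma Nn_sep {i j : ℕ} (h : i < j) : 2 * Nn i ≤ Nn j := by
  have h1 : Nn (i + 1) ≤ Nn j := Nn_strictMono.monotone h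
  have h2 : Nn (i + 1) = 4 * Nn i := by
    unfold Nn
    rw [show i + 1 + 11 = (i + 11) + 1 by ring, pow_succ]
    ring
  have h3 := Nn_ge_one i
  omega

noncomputable def F (m : ℕ) (z : ℂ) : ℝ := ∑ i ∈ Finset.range m, (v (Nn i) z).re

lemma v_ne_zero_imp {N : ℕ} {z : ℂ} (h : v N z ≠ 0) : (N : ℝ) < ‖z‖ ∧ ‖z‖ < 2 * N := by
  by_contra hc
  apply h
  apply v_zero_of
  rw [not_and_or, not_lt, not_lt] at hc
  exact hc

lemma v_disjoint {i j : ℕ} (hij : i ≠ j) {z : ℂ} (h : v (Nn i) z ≠ 0) : v (Nn j) z = 0 := by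
  by_contra hj
  obtain ⟨a1, a2⟩ := v_ne_zero_imp h
  obtain ⟨b1, b2⟩ := v_ne_zero_imp hj
  rcases lt_or_gt_of_ne hij with h1 | h1
  · have h2 : (2 * Nn i : ℝ) ≤ Nn j := by exact_mod_cast Nn_sep h1
    linarith
  · have h2 : (2 * Nn j : ℝ) ≤ Nn i := by exact_mod_cast Nn_sep h1
    linarith

lemma F_abs_le (m : ℕ) (z : ℂ) : |F m z| ≤ 1 := by
  unfold F
  by_cases h : ∃ i ∈ Finset.range m, v (Nn i) z ≠ 0
  · obtain ⟨i, hi, hv⟩ := h
    rw [Finset.sum_eq_single_of_mem i hi]
    · exact (Complex.abs_re_le_norm _).trans (norm_v_le_one _ _)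
    · intro j _ hj
      rw [v_disjoint hj.symm hv, Complex.zero_re]
  · push Not at h
    rw [Finset.sum_eq_zero]
    · simp
    · intro i hi
      rw [h i hi, Complex.zero_re]

noncomputable def LL (m : ℕ) : ℝ := ∑ i ∈ Finset.range m, (1 + 2 * (Nn i : ℝ))

lemma LL_nonneg (m : ℕ) : 0 ≤ LL m := Finset.sum_nonneg (fun i _ => by positivity)

lemma F_lip (m : ℕ) (z w : ℂ) : |F m z - F m w| ≤ LL m * ‖z - w‖ := by
  unfold F LL
  rw [← Finset.sum_sub_distrib, Finset.sum_mul]
  refine (Finset.abs_sum_le_sum_abs _ _).trans ?_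
  apply Finset.sum_le_sum
  intro i _
  rw [← Complex.sub_re]
  exact (Complex.abs_re_le_norm _).trans (v_lip (Nn_ge_one i) z w)

lemma F_zero_large (m : ℕ) (z : ℂ) (h : 2 * (Nn m : ℝ) ≤ ‖z‖) : F m z = 0 := by
  unfold F
  apply Finset.sum_eq_zero
  intro i hi
  rw [v_zero_of, Complex.zero_re]
  right
  have h1 : Nn i ≤ Nn m := Nn_strictMono.monotone (Finset.mem_range.1 hi).le
  have h2 : (Nn i : ℝ) ≤ Nn m := by exact_mod_cast h1
  linarith

lemma F_zero_small (m : ℕ) (z : ℂ) (h : ‖z‖ ≤ 2) : F m z = 0 := by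
  unfold F
  apply Finset.sum_eq_zero
  intro i _
  rw [v_zero_of, Complex.zero_re]
  left
  linarith [Nn_ge_real i]

lemma continuous_F (m : ℕ) : Continuous (F m) := cont_of_lip (LL_nonneg m) (F_lip m)

section

variable {Om : ℝ → ℝ} (hm : Measurable Om) (hi : IntegrableOn Om (Ioo (-π) π))

lemma J_small (Om : ℝ → ℝ) (m : ℕ) {x : ℂ} (hx : ‖x‖ ≤ 2) (y : ℂ) :
    J Om (F m) x y = ker Om y * F m (x - y) := by
  unfold J
  rw [F_zero_small m x hx, ite_self, sub_zero]

lemma norm_half {x : ℂ} (hx : ‖x‖ < 1) : ‖x / 2‖ < 1 := by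
  rw [norm_div]
  simp only [Complex.norm_ofNat]
  linarith [norm_nonneg x]

include hm hi in
lemma G_diff (m : ℕ) {x : ℂ} (hx : ‖x‖ < 1) :
    G Om (F m) (x / 2) - G Om (F m) x = ∫ y, ker Om y * (F m (x / 2 - y) - F m (x - y)) := by
  unfold G
  rw [← integral_sub
    (integrable_J hm hi (LL_nonneg m) (F_abs_le m) (F_lip m) (F_zero_large m) (x / 2))
    (integrable_J hm hi (LL_nonneg m) (F_abs_le m) (F_lip m) (F_zero_large m) x)]
  congr 1
  ext y
  rw [J_small Om m (by linarith [norm_half hx]), J_small Om m (by linarith)]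
  ring

lemma avg_F (m : ℕ) (y : ℂ) :
    ∫ x in ball (0 : ℂ) 1, (F m (x / 2 - y) - F m (x - y))
      = ∑ i ∈ Finset.range m, Real.cos (Nn i * Complex.arg y) * wr (Nn i) ‖y‖ := by
  have h1 : ∀ x : ℂ, F m (x / 2 - y) - F m (x - y)
      = ∑ i ∈ Finset.range m, (v (Nn i) (-y + x / 2) - v (Nn i) (-y + x)).re := by
    intro x
    unfold F
    rw [← Finset.sum_sub_distrib]
    apply Finset.sum_congr rfl
    intro i _
    rw [Complex.sub_re, show x / 2 - y = -y + x / 2 by ring, show x - y = -y + x by ring]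
  simp_rw [h1]
  rw [integral_finset_sum]
  · apply Finset.sum_congr rfl
    intro i _
    have h2 : ∫ x in ball (0 : ℂ) 1, (v (Nn i) (-y + x / 2) - v (Nn i) (-y + x)).re
        = (W (Nn i) (-y)).re := integral_re (integrable_W_integrand (Nn_ge_one i) (-y))
    rw [h2, W_neg (Nn_even i), W_re]
  · intro i _
    exact (integrable_W_integrand (Nn_ge_one i) (-y)).re

include hm hi in
lemma integrable_H (m : ℕ) :
    Integrable (Function.uncurry (fun x y : ℂ => ker Om y * (F m (x / 2 - y) - F m (x - y))))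
      ((volume.restrict (ball (0 : ℂ) 1)).prod volume) := by
  have hk := ker_integrableOn hm hi (a := 1) (b := 2 * (Nn m : ℝ) + 1) one_pos
  have hset := measurableSet_norm (measurableSet_Icc (a := (1 : ℝ)) (b := 2 * (Nn m : ℝ) + 1))
  have hk2 : Integrable (fun y : ℂ =>
      2 * ‖{z : ℂ | ‖z‖ ∈ Icc (1 : ℝ) (2 * (Nn m : ℝ) + 1)}.indicator (ker Om) y‖) :=
    ((integrable_indicator_iff hset).2 hk).norm.const_mul 2
  have hk3 := hk2.comp_snd (volume.restrict (ball (0 : ℂ) 1))
  apply hk3.mono'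
  · have hF := (continuous_F m).measurable
    have hker := measurable_ker hm
    apply Measurable.aestronglyMeasurable
    apply Measurable.mul (hker.comp measurable_snd)
    apply Measurable.sub
    · exact hF.comp ((measurable_fst.div_const 2).sub measurable_snd)
    · exact hF.comp (measurable_fst.sub measurable_snd)
  · have h1 : (volume.restrict (ball (0 : ℂ) 1)).prod (volume : Measure ℂ)
        = ((volume : Measure ℂ).prod volume).restrict (ball (0 : ℂ) 1 ×ˢ univ) := by
      conv_lhs => rw [← Measure.restrict_univ (μ := (volume : Measure ℂ))]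
      rw [Measure.restrict_restrict measurableSet_ball, inter_univ, Measure.prod_restrict]
    rw [h1, ae_restrict_iff' (measurableSet_ball.prod MeasurableSet.univ)]
    refine Eventually.of_forall (fun p hp => ?_)
    have hx : ‖p.1‖ < 1 := by simpa using hp.1
    have hx2 := norm_half hx
    have hbd : |F m (p.1 / 2 - p.2) - F m (p.1 - p.2)| ≤ 2 := by
      have e1 := F_abs_le m (p.1 / 2 - p.2)
      have e2 := F_abs_le m (p.1 - p.2)
      have e3 := abs_sub (F m (p.1 / 2 - p.2)) (F m (p.1 - p.2))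
      linarith
    simp only [Function.uncurry]
    by_cases hy : ‖p.2‖ ∈ Icc (1 : ℝ) (2 * (Nn m : ℝ) + 1)
    · rw [indicator_of_mem (by exact hy), norm_mul, mul_comm]
      gcongr
      rw [Real.norm_eq_abs]
      exact hbd
    · have hz : F m (p.1 / 2 - p.2) = 0 ∧ F m (p.1 - p.2) = 0 := by
        rw [mem_Icc, not_and_or, not_le, not_le] at hy
        rcases hy with hy | hy
        · constructor
          · apply F_zero_small
            exact (norm_sub_le _ _).trans (by linarith)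
          · apply F_zero_small
            exact (norm_sub_le _ _).trans (by linarith)
        · constructor
          · apply F_zero_large
            have := norm_sub_norm_le p.2 (p.1 / 2)
            rw [norm_sub_rev] at this
            linarith
          · apply F_zero_large
            have := norm_sub_norm_le p.2 p.1
            rw [norm_sub_rev] at this
            linarith
      rw [hz.1, hz.2, sub_zero, mul_zero, norm_zero]
      positivity

include hm hi in
lemma T_eq (m : ℕ) {ε : ℕ → ℝ}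
    (hcos : ∀ i, ∫ θ in Ioo (-π) π, Om θ * Real.cos (Nn i * θ) = π * ε i) :
    ∫ x in ball (0 : ℂ) 1, (G Om (F m) (x / 2) - G Om (F m) x)
      = ∑ i ∈ Finset.range m, (∫ r in Ioi (0 : ℝ), r * ((r ^ 2)⁻¹ * wr (Nn i) r)) * (π * ε i) := by
  have h1 : ∫ x in ball (0 : ℂ) 1, (G Om (F m) (x / 2) - G Om (F m) x)
      = ∫ x in ball (0 : ℂ) 1, ∫ y, ker Om y * (F m (x / 2 - y) - F m (x - y)) := by
    apply setIntegral_congr_fun measurableSet_ball
    intro x hx
    exact G_diff hm hi m (by simpa using hx)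
  rw [h1, integral_integral_swap (integrable_H hm hi m)]
  have h2 : ∀ y : ℂ, ∫ x in ball (0 : ℂ) 1, ker Om y * (F m (x / 2 - y) - F m (x - y))
      = ∑ i ∈ Finset.range m, ((‖y‖ ^ 2)⁻¹ * wr (Nn i) ‖y‖)
        * (Om (Complex.arg y) * Real.cos (Nn i * Complex.arg y)) := by
    intro y
    rw [integral_const_mul, avg_F, Finset.mul_sum]
    apply Finset.sum_congr rfl
    intro i _
    unfold ker
    ring
  simp_rw [h2]
  rw [integral_finset_sum]
  · apply Finset.sum_congr rfl
    intro i _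
    rw [← hcos i, ← integral_polar (fun r => (r ^ 2)⁻¹ * wr (Nn i) r)
      (fun θ => Om θ * Real.cos (Nn i * θ))]
  · intro i _
    have hc : Continuous (fun θ : ℝ => Real.cos (Nn i * θ)) := by fun_prop
    apply integrable_polar (φ := fun r => (r ^ 2)⁻¹ * wr (Nn i) r)
      (h := fun θ => Om θ * Real.cos (Nn i * θ))
    · exact (measurable_id.pow_const 2).inv.mul (continuous_wr (Nn_ge_one i)).measurable
    · exact hm.mul hc.measurable
    · exact radial_integrable (le_trans (by norm_num) (Nn_ge i))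
    · apply hi.mul_bdd (c := 1) hc.aestronglyMeasurable
      exact Eventually.of_forall (fun θ => by
        rw [Real.norm_eq_abs]
        exact Real.abs_cos_le_one _)

end

lemma upper {g : ℂ → ℝ} (a : ℝ) (hg : IntegrableOn g (ball 0 1)) :
    |∫ x in ball (0 : ℂ) 1, (g (x / 2) - g x)| ≤ 5 * ∫ x in ball (0 : ℂ) 1, |g x - a| := by
  set h : ℂ → ℝ := fun x => g x - a with hh
  have hint : IntegrableOn h (ball 0 1) := hg.sub (integrable_const a)
  have hsub : (1 / 2 : ℝ) • ball (0 : ℂ) 1 ⊆ ball (0 : ℂ) 1 := by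
    rintro _ ⟨x, hx, rfl⟩
    rw [mem_ball_zero_iff] at hx ⊢
    simp only [norm_smul]
    rw [Real.norm_eq_abs, abs_of_pos (by norm_num)]
    linarith [norm_nonneg x]
  have hhalf : ∀ x : ℂ, x / 2 = (1 / 2 : ℝ) • x := by
    intro x
    rw [Complex.real_smul]
    push_cast
    ring
  have hint2 : IntegrableOn (fun x => h (x / 2)) (ball (0 : ℂ) 1) := by
    have h1 : Integrable ((ball (0 : ℂ) 1).indicator h) :=
      (integrable_indicator_iff measurableSet_ball).2 hint
    have h2 := (h1.comp_smul (R := (1 / 2 : ℝ)) (by norm_num)).integrableOn (s := ball (0 : ℂ) 1)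
    apply h2.congr_fun _ measurableSet_ball
    intro x hx
    have : (1 / 2 : ℝ) • x ∈ ball (0 : ℂ) 1 := hsub ⟨x, hx, rfl⟩
    simp only [indicator_of_mem this, hhalf]
  have h3 : ∫ x in ball (0 : ℂ) 1, (g (x / 2) - g x) = ∫ x in ball (0 : ℂ) 1, (h (x / 2) - h x) := by
    congr 1
    ext x
    simp [hh]
  have h4 : ∫ x in ball (0 : ℂ) 1, |h (x / 2)| ≤ 4 * ∫ x in ball (0 : ℂ) 1, |h x| := by
    have h5 := Measure.setIntegral_comp_smul (μ := (volume : Measure ℂ)) (fun x => |h x|)
      (s := ball (0 : ℂ) 1) (R := (1 / 2 : ℝ)) (by norm_num)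
    rw [Complex.finrank_real_complex] at h5
    simp_rw [hhalf]
    rw [h5]
    have h6 : |((1 / 2 : ℝ) ^ 2)⁻¹| = 4 := by norm_num
    rw [h6, smul_eq_mul]
    apply mul_le_mul_of_nonneg_left _ (by norm_num)
    apply setIntegral_mono_set hint.abs
    · exact Eventually.of_forall (fun x => abs_nonneg _)
    · exact hsub.eventuallyLE
  rw [h3]
  calc |∫ x in ball (0 : ℂ) 1, (h (x / 2) - h x)|
      ≤ ∫ x in ball (0 : ℂ) 1, |h (x / 2) - h x| := abs_integral_le_integral_abs
    _ ≤ ∫ x in ball (0 : ℂ) 1, (|h (x / 2)| + |h x|) := by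
        apply integral_mono (hint2.sub hint).abs (hint2.abs.add hint.abs)
        intro x
        exact abs_sub _ _
    _ = (∫ x in ball (0 : ℂ) 1, |h (x / 2)|) + ∫ x in ball (0 : ℂ) 1, |h x| :=
        integral_add hint2.abs hint.abs
    _ ≤ 5 * ∫ x in ball (0 : ℂ) 1, |h x| := by linarith

/-- the angular part -/
lemma exists_Om : ∃ Om : ℝ → ℝ, Measurable Om ∧ IntegrableOn (fun θ => Om θ ^ 2) (Ioo (-π) π) ∧
    IntegrableOn Om (Ioo (-π) π) ∧ ∫ θ in Ioo (-π) π, Om θ = 0 ∧
    ∀ C : ℝ, ∃ m : ℕ, C < ∫ x in ball (0 : ℂ) 1, (G Om (F m) (x / 2) - G Om (F m) x) := by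
  obtain ⟨Om, hm, hi2, hi, h0, hcos⟩ := exists_angular Nn Nn_strictMono (Nn_ge_one 0)
    (fun i => 1 / ((i : ℝ) + 1)) (by
      have h1 : Summable (fun n : ℕ => 1 / ((n : ℝ)) ^ 2) :=
        Real.summable_one_div_nat_pow.2 (by norm_num)
      have h2 := (summable_nat_add_iff 1).2 h1
      refine h2.congr (fun i => ?_)
      push_cast
      rw [div_pow, one_pow])
  refine ⟨Om, hm, hi2, hi, h0, fun C => ?_⟩
  have hdiv : Tendsto (fun m : ℕ => ∑ i ∈ Finset.range m, 1 / ((i : ℝ) + 1)) atTop atTop :=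
    Real.tendsto_sum_range_one_div_nat_succ_atTop
  have hpi := Real.pi_pos
  obtain ⟨m, hmC⟩ := (hdiv.eventually_gt_atTop (C / (π / 76800 * π))).exists
  refine ⟨m, ?_⟩
  rw [T_eq hm hi m hcos]
  rw [div_lt_iff₀ (by positivity)] at hmC
  refine lt_of_lt_of_le hmC ?_
  rw [Finset.sum_mul]
  apply Finset.sum_le_sum
  intro i _
  have h1 := radial_lower (Nn_ge i)
  calc 1 / ((i : ℝ) + 1) * (π / 76800 * π) = (π / 76800) * (π * (1 / ((i : ℝ) + 1))) := by ring
    _ ≤ _ := by gcongr

end Pool.Agent.X93.BMO
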