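import Pool.Agent.X93.BMO.Low

/-! Lower bound for the radial integral. -/

set_option autoImplicit false
set_option linter.unusedSectionVars false

open MeasureTheory Set Filter Topology Metric
open scoped Real ENNReal ComplexConjugate

namespace Pool.Agent.X93.BMO

lemma rad_fun_continuousOn {N : ℕ} (hN : 1 ≤ N) :
    ContinuousOn (fun r : ℝ => r * ((r ^ 2)⁻¹ * wr N r)) (Ioi 0) := by
  have hc := continuous_wr hN
  apply ContinuousOn.mul continuousOn_id
  apply ContinuousOn.mul _ hc.continuousOn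
  apply ContinuousOn.inv₀ (continuousOn_pow 2)
  intro x hx
  exact pow_ne_zero 2 (ne_of_gt hx)

lemma rad_zero {N : ℕ} {r : ℝ} (hr : 0 ≤ r) (h : r ≤ N - 1 ∨ 2 * (N : ℝ) + 1 ≤ r) :
    r * ((r ^ 2)⁻¹ * wr N r) = 0 := by
  rw [wr_eq_zero hr h]
  ring

lemma radial_intervalIntegrable {N : ℕ} (hN : 2 ≤ N) {a b : ℝ} (ha : 1 ≤ a) (hb : 1 ≤ b) :
    IntervalIntegrable (fun r : ℝ => r * ((r ^ 2)⁻¹ * wr N r)) volume a b := by
  apply ContinuousOn.intervalIntegrable
  apply (rad_fun_continuousOn (by omega)).mono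
  intro x hx
  have h1 := hx.1
  have h2 : 1 ≤ min a b := le_min ha hb
  exact lt_of_lt_of_le zero_lt_one (h2.trans h1)

lemma radial_integrable {N : ℕ} (hN : 2 ≤ N) :
    IntegrableOn (fun r : ℝ => r * ((r ^ 2)⁻¹ * wr N r)) (Ioi 0) := by
  have hN' : (2 : ℝ) ≤ N := by exact_mod_cast hN
  have h1 : IntegrableOn (fun r : ℝ => r * ((r ^ 2)⁻¹ * wr N r)) (Ioc (N - 1 : ℝ) (2 * N + 1)) :=
    (radial_intervalIntegrable hN (by linarith) (by linarith)).1
  apply h1.of_forall_diff_eq_zero measurableSet_Ioi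
  intro x hx
  have hx0 : 0 < x := hx.1
  apply rad_zero hx0.le
  have hx2 := hx.2
  rw [mem_Ioc, not_and_or, not_lt, not_le] at hx2
  rcases hx2 with h | h
  · exact Or.inl h
  · exact Or.inr h.le

lemma radial_eq {N : ℕ} (hN : 2 ≤ N) :
    ∫ r in Ioi (0 : ℝ), r * ((r ^ 2)⁻¹ * wr N r)
      = ∫ r in (N - 1 : ℝ)..(2 * N + 1), r * ((r ^ 2)⁻¹ * wr N r) := by
  have hN' : (2 : ℝ) ≤ N := by exact_mod_cast hN
  rw [intervalIntegral.integral_of_le (by linarith)]
  apply setIntegral_eq_of_subset_of_forall_diff_eq_zero measurableSet_Ioi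
  · intro x hx
    exact lt_of_le_of_lt (by linarith) hx.1
  · intro x hx
    have hx0 : 0 < x := hx.1
    apply rad_zero hx0.le
    have hx2 := hx.2
    rw [mem_Ioc, not_and_or, not_lt, not_le] at hx2
    rcases hx2 with h | h
    · exact Or.inl h
    · exact Or.inr h.le

lemma rad_abs_le {N : ℕ} (hN : 2 ≤ N) {r : ℝ} (hr : (N : ℝ) - 1 ≤ r) :
    ‖r * ((r ^ 2)⁻¹ * wr N r)‖ ≤ 2 * π / (N - 1) := by
  have hN' : (2 : ℝ) ≤ N := by exact_mod_cast hN
  have hr0 : 0 < r := by linarith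
  have h1 : r * ((r ^ 2)⁻¹ * wr N r) = wr N r / r := by
    field_simp
  rw [h1, Real.norm_eq_abs, abs_div, abs_of_pos hr0]
  exact div_le_div₀ (by positivity) (abs_wr_le N r) (by linarith) hr

lemma radial_lower {N : ℕ} (hN : 4 ^ 11 ≤ N) :
    π / 76800 ≤ ∫ r in Ioi (0 : ℝ), r * ((r ^ 2)⁻¹ * wr N r) := by
  have hN2 : 2 ≤ N := le_trans (by norm_num) hN
  have hN100 : 100 ≤ N := le_trans (by norm_num) hN
  have hNr : (4194304 : ℝ) ≤ N := by
    have : (4194304 : ℕ) ≤ N := le_trans (by norm_num) hN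
    exact_mod_cast this
  have hpi := Real.pi_pos
  rw [radial_eq hN2]
  have i1 := radial_intervalIntegrable (N := N) hN2 (a := (N : ℝ) - 1) (b := (N : ℝ) + 2)
    (by linarith) (by linarith)
  have i2 := radial_intervalIntegrable (N := N) hN2 (a := (N : ℝ) + 2) (b := 2 * (N : ℝ) - 2)
    (by linarith) (by linarith)
  have i3 := radial_intervalIntegrable (N := N) hN2 (a := 2 * (N : ℝ) - 2) (b := 2 * (N : ℝ) + 1)
    (by linarith) (by linarith)
  rw [← intervalIntegral.integral_add_adjacent_intervals (i1.trans i2) i3,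
    ← intervalIntegral.integral_add_adjacent_intervals i1 i2]
  have b1 : -(2 * π / (N - 1) * 3) ≤ ∫ r in (N - 1 : ℝ)..(N + 2), r * ((r ^ 2)⁻¹ * wr N r) := by
    have h := intervalIntegral.norm_integral_le_of_norm_le_const (a := (N : ℝ) - 1)
      (b := (N : ℝ) + 2) (C := 2 * π / (N - 1)) (f := fun r : ℝ => r * ((r ^ 2)⁻¹ * wr N r))
      (by
        intro x hx
        rw [uIoc_of_le (by linarith)] at hx
        exact rad_abs_le hN2 hx.1.le)
    rw [show (N : ℝ) + 2 - (N - 1) = 3 by ring, abs_of_pos (by norm_num : (0 : ℝ) < 3),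
      Real.norm_eq_abs] at h
    linarith [neg_abs_le (∫ r in (N - 1 : ℝ)..(N + 2), r * ((r ^ 2)⁻¹ * wr N r))]
  have b3 : -(2 * π / (N - 1) * 3)
      ≤ ∫ r in (2 * N - 2 : ℝ)..(2 * N + 1), r * ((r ^ 2)⁻¹ * wr N r) := by
    have h := intervalIntegral.norm_integral_le_of_norm_le_const (a := 2 * (N : ℝ) - 2)
      (b := 2 * (N : ℝ) + 1) (C := 2 * π / (N - 1)) (f := fun r : ℝ => r * ((r ^ 2)⁻¹ * wr N r))
      (by
        intro x hx
        rw [uIoc_of_le (by linarith)] at hx
        exact rad_abs_le hN2 (by linarith [hx.1]))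
    rw [show 2 * (N : ℝ) + 1 - (2 * N - 2) = 3 by ring, abs_of_pos (by norm_num : (0 : ℝ) < 3),
      Real.norm_eq_abs] at h
    linarith [neg_abs_le (∫ r in (2 * N - 2 : ℝ)..(2 * N + 1), r * ((r ^ 2)⁻¹ * wr N r))]
  have b2 : π / 38400 / N * (N - 4)
      ≤ ∫ r in (N + 2 : ℝ)..(2 * N - 2), r * ((r ^ 2)⁻¹ * wr N r) := by
    have h : ∫ r in (N + 2 : ℝ)..(2 * N - 2), (π / 38400 / N : ℝ)
        ≤ ∫ r in (N + 2 : ℝ)..(2 * N - 2), r * ((r ^ 2)⁻¹ * wr N r) := by
      apply intervalIntegral.integral_mono_on (by linarith) (by simp) i2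
      intro x hx
      have hx0 : 0 < x := by linarith [hx.1]
      have h1 : x * ((x ^ 2)⁻¹ * wr N x) = wr N x / x := by
        field_simp
      rw [h1]
      have h2 := wr_lower hN100 hx.1 hx.2
      rw [le_div_iff₀ hx0]
      calc π / 38400 / N * x ≤ π / 38400 / N * (2 * N) := by
            gcongr
            linarith [hx.2]
        _ = π / 19200 := by
            field_simp
            norm_num
        _ ≤ wr N x := h2
    rw [intervalIntegral.integral_const, smul_eq_mul] at h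
    refine le_trans (le_of_eq ?_) h
    ring
  have hsmall : 2 * π / ((N : ℝ) - 1) * 3 ≤ π / 600000 := by
    rw [div_mul_eq_mul_div, div_le_iff₀ (by linarith)]
    have : π / 600000 * (4194303) ≤ π / 600000 * ((N : ℝ) - 1) := by
      gcongr
      linarith
    refine le_trans ?_ this
    linarith
  have hmid : π / 40000 ≤ π / 38400 / N * (N - 4) := by
    have h1 : π / 38400 / N * (N - 4) = π / 38400 * (1 - 4 / N) := by
      field_simp
    rw [h1]
    have h2 : 4 / (N : ℝ) ≤ 1 / 1000 := by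
      rw [div_le_div_iff₀ (by linarith) (by norm_num)]
      linarith
    have h3 : π / 38400 * (999 / 1000) ≤ π / 38400 * (1 - 4 / N) := by
      gcongr
      linarith
    refine le_trans ?_ h3
    linarith
  linarith

end Pool.Agent.X93.BMO
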