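import Pool.Agent.X93.BMO.Polar
import Pool.Agent.X93.BMO.Radial

/-! The kernel and the principal value. -/

set_option autoImplicit false
set_option linter.unusedSectionVars false

open MeasureTheory Set Filter Topology Metric
open scoped Real ENNReal ComplexConjugate

namespace Pool.Agent.X93.BMO

/-- the kernel with angular part `Om` -/
noncomputable def ker (Om : ℝ → ℝ) (z : ℂ) : ℝ := (‖z‖ ^ 2)⁻¹ * Om (Complex.arg z)

lemma ker_zero (Om : ℝ → ℝ) : ker Om 0 = 0 := by simp [ker]

lemma measurable_ker {Om : ℝ → ℝ} (h : Measurable Om) : Measurable (ker Om) :=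
  ((measurable_norm.pow_const 2).inv).mul (h.comp Complex.measurable_arg)

lemma ker_smul (Om : ℝ → ℝ) (z : ℂ) (t : ℝ) (ht : 0 < t) :
    ker Om (t • z) = t ^ (-((2 : ℕ) : ℤ)) * ker Om z := by
  unfold ker
  rw [norm_smul, Real.norm_eq_abs, abs_of_pos ht, Complex.real_smul, Complex.arg_real_mul _ ht,
    zpow_neg, zpow_natCast, mul_pow, mul_inv]
  ring

lemma int_of_bdd {φ : ℝ → ℝ} (hφ : Measurable φ) {b C : ℝ}
    (h1 : ∀ r, 0 < r → r ≤ b → |r * φ r| ≤ C) (h2 : ∀ r, 0 < r → b < r → φ r = 0) :
    IntegrableOn (fun r => r * φ r) (Ioi 0) := by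
  have h3 : IntegrableOn (fun r => r * φ r) (Ioc 0 b) := by
    apply Integrable.mono' (g := fun _ => C)
    · exact integrableOn_const (by simp)
    · exact (measurable_id.mul hφ).aestronglyMeasurable
    · rw [ae_restrict_iff' measurableSet_Ioc]
      exact Eventually.of_forall (fun r hr => h1 r hr.1 hr.2)
  apply h3.of_forall_sdiff_eq_zero measurableSet_Ioi
  intro x hx
  have hx2 := hx.2
  rw [mem_Ioc, not_and_or, not_lt, not_le] at hx2
  rcases hx2 with h | h
  · exact absurd hx.1 (not_lt.2 h)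
  · rw [h2 x hx.1 h, mul_zero]

lemma measurableSet_norm {S : Set ℝ} (hS : MeasurableSet S) :
    MeasurableSet {z : ℂ | ‖z‖ ∈ S} := measurable_norm hS

lemma ker_int_zero {Om : ℝ → ℝ} (h0 : ∫ θ in Ioo (-π) π, Om θ = 0) {S : Set ℝ}
    (hS : MeasurableSet S) : ∫ z in {z : ℂ | ‖z‖ ∈ S}, ker Om z = 0 := by
  rw [← integral_indicator (measurableSet_norm hS)]
  have h1 : ∀ z : ℂ, {z : ℂ | ‖z‖ ∈ S}.indicator (ker Om) z
      = (S.indicator (fun r : ℝ => (r ^ 2)⁻¹) ‖z‖) * Om (Complex.arg z) := by
    intro z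
    by_cases hz : ‖z‖ ∈ S
    · rw [indicator_of_mem (by exact hz), indicator_of_mem hz]
      rfl
    · rw [indicator_of_notMem (by exact hz), indicator_of_notMem hz, zero_mul]
  simp_rw [h1]
  rw [integral_polar, h0, mul_zero]

lemma integrableOn_pow_ker {h : ℝ → ℝ} (hm : Measurable h) (hi : IntegrableOn h (Ioo (-π) π))
    (j : ℕ) {a b : ℝ} (ha : 0 < a) :
    IntegrableOn (fun z : ℂ => (‖z‖ ^ j)⁻¹ * h (Complex.arg z)) {z : ℂ | ‖z‖ ∈ Icc a b} := by
  rw [← integrable_indicator_iff (measurableSet_norm measurableSet_Icc)]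
  have h1 : {z : ℂ | ‖z‖ ∈ Icc a b}.indicator (fun z : ℂ => (‖z‖ ^ j)⁻¹ * h (Complex.arg z))
      = fun z : ℂ => ((Icc a b).indicator (fun r : ℝ => (r ^ j)⁻¹) ‖z‖) * h (Complex.arg z) := by
    ext z
    by_cases hz : ‖z‖ ∈ Icc a b
    · rw [indicator_of_mem (by exact hz), indicator_of_mem hz]
    · rw [indicator_of_notMem (by exact hz), indicator_of_notMem hz, zero_mul]
  rw [h1]
  apply integrable_polar _ hm _ hi
  · exact (measurable_id.pow_const j).inv.indicator measurableSet_Icc
  · apply int_of_bdd (b := b) (C := b * (a ^ j)⁻¹)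
    · exact (measurable_id.pow_const j).inv.indicator measurableSet_Icc
    · intro r hr hrb
      by_cases hra : r ∈ Icc a b
      · rw [indicator_of_mem hra, abs_of_pos (by positivity)]
        have := hra.1
        have hb : 0 ≤ b := hr.le.trans hrb
        gcongr
      · rw [indicator_of_notMem hra, mul_zero, abs_zero]
        have : 0 < b := lt_of_lt_of_le hr hrb
        positivity
    · intro r _ hr
      rw [indicator_of_notMem]
      intro h
      exact absurd h.2 (not_le.2 hr)

lemma ker_integrableOn {Om : ℝ → ℝ} (hm : Measurable Om) (hi : IntegrableOn Om (Ioo (-π) π))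
    {a b : ℝ} (ha : 0 < a) : IntegrableOn (ker Om) {z : ℂ | ‖z‖ ∈ Icc a b} :=
  integrableOn_pow_ker hm hi 2 ha

lemma ker_log_integrableOn {Om : ℝ → ℝ} (hm : Measurable Om)
    (hi : IntegrableOn (fun θ => Om θ ^ 2) (Ioo (-π) π)) {a b : ℝ} (ha : 0 < a) :
    IntegrableOn (fun z : ℂ => |ker Om z| * max 0 (Real.log |ker Om z|))
      {z : ℂ | ‖z‖ ∈ Icc a b} := by
  have h1 := integrableOn_pow_ker (h := fun θ => Om θ ^ 2) (hm.pow_const 2) hi 4 (a := a) (b := b) ha
  apply Integrable.mono' h1
  · apply Measurable.aestronglyMeasurable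
    have hk := measurable_ker hm
    have h2 : Measurable (fun z : ℂ => |ker Om z|) := by
      simpa [Real.norm_eq_abs] using hk.norm
    exact h2.mul (measurable_const.max (Real.measurable_log.comp h2))
  · refine Eventually.of_forall (fun z => ?_)
    have h3 : max 0 (Real.log |ker Om z|) ≤ |ker Om z| :=
      max_le (abs_nonneg _) (Real.log_le_self (abs_nonneg _))
    rw [Real.norm_eq_abs, abs_of_nonneg (mul_nonneg (abs_nonneg _) (le_max_left _ _))]
    calc |ker Om z| * max 0 (Real.log |ker Om z|) ≤ |ker Om z| * |ker Om z| := by gcongr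
      _ = (‖z‖ ^ 4)⁻¹ * Om (Complex.arg z) ^ 2 := by
        rw [← sq, sq_abs]
        unfold ker
        rw [mul_pow, ← inv_pow, ← inv_pow]
        ring

/-- the absolutely convergent form of the principal-value integrand -/
noncomputable def J (Om : ℝ → ℝ) (f : ℂ → ℝ) (x y : ℂ) : ℝ :=
  ker Om y * (f (x - y) - if ‖y‖ ≤ 1 then f x else 0)

/-- the value of the principal value integral -/
noncomputable def G (Om : ℝ → ℝ) (f : ℂ → ℝ) (x : ℂ) : ℝ := ∫ y, J Om f x y

section pv

variable {Om : ℝ → ℝ} (hm : Measurable Om) (hi : IntegrableOn Om (Ioo (-π) π))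
  (h0 : ∫ θ in Ioo (-π) π, Om θ = 0) {f : ℂ → ℝ} {L R : ℝ} (hL : 0 ≤ L)
  (hf1 : ∀ z, |f z| ≤ 1) (hfL : ∀ z w, |f z - f w| ≤ L * ‖z - w‖)
  (hfR : ∀ z, R ≤ ‖z‖ → f z = 0)

include hL hfL in
lemma cont_of_lip : Continuous f := by
  have h : LipschitzWith (Real.toNNReal L) f := by
    apply LipschitzWith.of_dist_le_mul
    intro x y
    rw [Real.coe_toNNReal _ hL, dist_eq_norm, dist_eq_norm]
    exact hfL x y
  exact h.continuous

include hm hL hfL in
lemma measurable_J (x : ℂ) : Measurable (J Om f x) := by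
  have hfc := (cont_of_lip hL hfL).measurable
  unfold J
  apply (measurable_ker hm).mul
  apply Measurable.sub
  · exact hfc.comp (measurable_const.sub measurable_id)
  · exact Measurable.ite (measurableSet_le measurable_norm measurable_const) measurable_const
      measurable_const

include hm hi hL hf1 hfL hfR in
lemma integrable_J (x : ℂ) : Integrable (J Om f x) := by
  set B : ℝ := |R| + ‖x‖ with hB
  set φ : ℝ → ℝ := fun r => if r ≤ 1 then L * r⁻¹ else (if r ≤ B then (r ^ 2)⁻¹ else 0) with hφ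
  have hφm : Measurable φ := by
    apply Measurable.ite measurableSet_Iic
    · exact measurable_const.mul measurable_inv
    · apply Measurable.ite measurableSet_Iic
      · exact (measurable_id.pow_const 2).inv
      · exact measurable_const
  have hbd : Integrable (fun y : ℂ => φ ‖y‖ * |Om (Complex.arg y)|) := by
    have habs : Measurable (fun θ => |Om θ|) := by simpa [Real.norm_eq_abs] using hm.norm
    have hiabs : IntegrableOn (fun θ => |Om θ|) (Ioo (-π) π) := hi.abs
    apply integrable_polar hφm habs _ hiabs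
    apply int_of_bdd hφm (b := max 1 B) (C := max L 1)
    · intro r hr _
      simp only [hφ]
      split_ifs with h1 h2
      · rw [show r * (L * r⁻¹) = L by field_simp, abs_of_nonneg hL]
        exact le_max_left _ _
      · rw [abs_of_pos (by positivity)]
        refine le_trans ?_ (le_max_right _ _)
        rw [show r * (r ^ 2)⁻¹ = r⁻¹ by field_simp]
        exact inv_le_one_of_one_le₀ (not_le.1 h1).le
      · rw [mul_zero, abs_zero]
        exact le_trans zero_le_one (le_max_right _ _)
    · intro r _ hr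
      simp only [hφ]
      rw [if_neg (not_le.2 (lt_of_le_of_lt (le_max_left _ _) hr)),
        if_neg (not_le.2 (lt_of_le_of_lt (le_max_right _ _) hr))]
  apply hbd.mono' (measurable_J hm hL hfL x).aestronglyMeasurable
  refine Eventually.of_forall (fun y => ?_)
  rw [Real.norm_eq_abs]
  unfold J ker
  rw [abs_mul, abs_mul, abs_of_nonneg (by positivity : (0 : ℝ) ≤ (‖y‖ ^ 2)⁻¹)]
  simp only [hφ]
  split_ifs with h1 h2
  · have h3 : |f (x - y) - f x| ≤ L * ‖y‖ := by
      have := hfL (x - y) x
      rwa [show x - y - x = -y by ring, norm_neg] at this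
    calc (‖y‖ ^ 2)⁻¹ * |Om y.arg| * |f (x - y) - f x|
        ≤ (‖y‖ ^ 2)⁻¹ * |Om y.arg| * (L * ‖y‖) := by gcongr
      _ = L * ‖y‖⁻¹ * |Om y.arg| := by
        by_cases hy : ‖y‖ = 0
        · rw [hy]; simp
        · field_simp
  · rw [sub_zero]
    calc (‖y‖ ^ 2)⁻¹ * |Om y.arg| * |f (x - y)| ≤ (‖y‖ ^ 2)⁻¹ * |Om y.arg| * 1 := by
          gcongr
          exact hf1 _
      _ = _ := by ring
  · rw [sub_zero, hfR (x - y), abs_zero, mul_zero, zero_mul]
    have h3 := norm_sub_norm_le y x
    rw [norm_sub_rev] at h3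
    have h4 := not_le.1 h2
    linarith [le_abs_self R]

include hm hi h0 hL hf1 hfL hfR in
lemma pv_eq (x : ℂ) {ε : ℝ} (hε : 0 < ε) :
    ∫ y in {y : ℂ | ε < ‖y‖}, ker Om y * f (x - y) = ∫ y in {y : ℂ | ε < ‖y‖}, J Om f x y := by
  have hS : MeasurableSet {y : ℂ | ε < ‖y‖} := measurableSet_lt measurable_const measurable_norm
  have hT : MeasurableSet {y : ℂ | ‖y‖ ≤ 1} := measurableSet_le measurable_norm measurable_const
  have h1 : ∀ y : ℂ, ker Om y * f (x - y)
      = J Om f x y + f x * {y : ℂ | ‖y‖ ≤ 1}.indicator (ker Om) y := by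
    intro y
    unfold J
    by_cases hy : ‖y‖ ≤ 1
    · rw [if_pos hy, indicator_of_mem (by exact hy)]
      ring
    · rw [if_neg hy, indicator_of_notMem (by exact hy)]
      ring
  simp_rw [h1]
  have hint : IntegrableOn ({y : ℂ | ‖y‖ ≤ 1}.indicator (ker Om)) {y : ℂ | ε < ‖y‖} := by
    rw [IntegrableOn, integrable_indicator_iff hT, IntegrableOn, Measure.restrict_restrict hT]
    apply (ker_integrableOn hm hi (a := ε) (b := 1) hε).mono_set
    intro y hy
    exact ⟨le_of_lt hy.2, hy.1⟩
  rw [integral_add (integrable_J hm hi hL hf1 hfL hfR x).integrableOn (hint.const_mul _),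
    integral_const_mul, setIntegral_indicator hT]
  have h2 : {y : ℂ | ε < ‖y‖} ∩ {y : ℂ | ‖y‖ ≤ 1} = {y : ℂ | ‖y‖ ∈ Ioc ε 1} := by
    ext y
    rfl
  rw [h2, ker_int_zero h0 measurableSet_Ioc, mul_zero, add_zero]

include hm hi h0 hL hf1 hfL hfR in
lemma pv_tendsto (x : ℂ) :
    Tendsto (fun ε : ℝ => ∫ y in {y : ℂ | ε < ‖y‖}, ker Om y * f (x - y))
      (𝓝[>] 0) (𝓝 (G Om f x)) := by
  have hJ := integrable_J hm hi hL hf1 hfL hfR x
  have h1 : Tendsto (fun ε : ℝ => ∫ y, {y : ℂ | ε < ‖y‖}.indicator (J Om f x) y)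
      (𝓝[>] 0) (𝓝 (G Om f x)) := by
    unfold G
    apply tendsto_integral_filter_of_dominated_convergence (fun y => ‖J Om f x y‖)
    · refine Eventually.of_forall (fun ε => ?_)
      have hS : MeasurableSet {y : ℂ | ε < ‖y‖} := measurableSet_lt measurable_const measurable_norm
      exact ((measurable_J hm hL hfL x).indicator hS).aestronglyMeasurable
    · refine Eventually.of_forall (fun ε => Eventually.of_forall (fun y => ?_))
      exact norm_indicator_le_norm_self _ _
    · exact hJ.norm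
    · refine Eventually.of_forall (fun y => ?_)
      by_cases hy : y = 0
      · have h2 : J Om f x y = 0 := by
          unfold J
          rw [hy, ker_zero, zero_mul]
        have h3 : ∀ ε : ℝ, {y : ℂ | ε < ‖y‖}.indicator (J Om f x) y = 0 := by
          intro ε
          by_cases h : y ∈ {y : ℂ | ε < ‖y‖}
          · rw [indicator_of_mem h, h2]
          · rw [indicator_of_notMem h]
        simp only [h3, h2]
        exact tendsto_const_nhds
      · have hpos : 0 < ‖y‖ := norm_pos_iff.2 hy
        apply tendsto_const_nhds.congr'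
        have h4 : ∀ᶠ ε : ℝ in 𝓝[>] 0, ε < ‖y‖ := by
          apply mem_nhdsWithin_of_mem_nhds
          exact Iio_mem_nhds hpos
        filter_upwards [h4] with ε hε
        rw [indicator_of_mem]
        exact hε
  apply h1.congr'
  have h5 : ∀ᶠ ε : ℝ in 𝓝[>] 0, 0 < ε := self_mem_nhdsWithin
  filter_upwards [h5] with ε hε
  have hS : MeasurableSet {y : ℂ | ε < ‖y‖} := measurableSet_lt measurable_const measurable_norm
  rw [integral_indicator hS, pv_eq hm hi h0 hL hf1 hfL hfR x hε]

end pv

end Pool.Agent.X93.BMO
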