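import Pool.Agent.X93.BMO.Rad

/-! Lower bound for the radial profile. -/

set_option autoImplicit false
set_option linter.unusedSectionVars false

open MeasureTheory Set Filter Topology Metric
open scoped Real ENNReal ComplexConjugate

namespace Pool.Agent.X93.BMO

lemma arcsin_le {t : ℝ} (h0 : 0 ≤ t) (h1 : t ≤ 1) : Real.arcsin t ≤ π / 2 * t := by
  have hpi := Real.pi_pos
  have h2 : 0 ≤ π / 2 * t := by positivity
  have h3 : π / 2 * t ≤ π / 2 := by nlinarith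
  have h4 := Real.mul_le_sin h2 h3
  have h5 : 2 / π * (π / 2 * t) = t := by field_simp
  rw [h5] at h4
  calc Real.arcsin t ≤ Real.arcsin (Real.sin (π / 2 * t)) := Real.monotone_arcsin h4
    _ = π / 2 * t := Real.arcsin_sin (by linarith) h3

lemma le_arcsin {t : ℝ} (h0 : 0 ≤ t) (h1 : t ≤ 1) : t ≤ Real.arcsin t := by
  have hpi := Real.pi_gt_three
  rw [Real.le_arcsin_iff_sin_le' ⟨by linarith, by linarith⟩]
  exact Real.sin_le h0

lemma cos_mul_arcsin_abs (N t : ℝ) : Real.cos (N * Real.arcsin t)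
    = Real.cos (N * Real.arcsin |t|) := by
  rcases abs_cases t with ⟨h, _⟩ | ⟨h, _⟩
  · rw [h]
  · rw [h, Real.arcsin_neg, mul_neg, Real.cos_neg]

lemma cos_arg {z : ℂ} (hz : 0 ≤ z.re) (N : ℝ) :
    Real.cos (N * Complex.arg z) = Real.cos (N * Real.arcsin (|z.im| / ‖z‖)) := by
  rw [Complex.arg_of_re_nonneg hz, cos_mul_arcsin_abs, abs_div, abs_norm]

lemma norm_le_norm_two {r : ℝ} (hr : 1 ≤ r) {x : ℂ} (hx : ‖x‖ < 1) :
    ‖(r : ℂ) + x‖ ≤ ‖(2 * r : ℂ) + x‖ := by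
  have hre : |x.re| ≤ ‖x‖ := Complex.abs_re_le_norm x
  have h1 : -1 < x.re := by linarith [neg_abs_le x.re]
  apply le_of_sq_le_sq _ (norm_nonneg _)
  rw [← Complex.normSq_eq_norm_sq, ← Complex.normSq_eq_norm_sq, Complex.normSq_apply,
    Complex.normSq_apply]
  simp only [Complex.add_re, Complex.add_im, Complex.ofReal_re, Complex.ofReal_im, zero_add,
    Complex.mul_re, Complex.mul_im, Complex.re_ofNat, Complex.im_ofNat, zero_mul, mul_zero,
    sub_zero, add_zero]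
  nlinarith

/-- the two cosines -/
lemma re_v_eq {N : ℕ} {z : ℂ} (h1 : (N : ℝ) + 1 ≤ ‖z‖) (h2 : ‖z‖ ≤ 2 * N - 1) :
    (v N z).re = Real.cos (N * Complex.arg z) := by
  unfold v
  rw [tr_eq_one h1 h2, Complex.ofReal_one, one_mul]
  have hz : (‖z‖ : ℂ) ≠ 0 := by
    have : ‖z‖ ≠ 0 := by
      have : (0 : ℝ) ≤ N := Nat.cast_nonneg N
      linarith
    exact_mod_cast this
  have h3 : z / (‖z‖ : ℂ) = Complex.exp (Complex.arg z * Complex.I) := by
    rw [div_eq_iff hz, mul_comm]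
    exact (Complex.norm_mul_exp_arg_mul_I z).symm
  rw [h3, ← Complex.exp_nat_mul]
  have h4 : ((N : ℂ) * (Complex.arg z * Complex.I)) = ((N * Complex.arg z : ℝ) : ℂ) * Complex.I := by
    push_cast; ring
  rw [h4, Complex.exp_ofReal_mul_I_re]

section

variable {N : ℕ} {r : ℝ} {x : ℂ}

lemma geom (hN : 100 ≤ N) (hr1 : (N : ℝ) + 2 ≤ r) (hx : ‖x‖ < 1) :
    ‖(r : ℂ) + x‖ ≤ r + 1 ∧ r - 1 ≤ ‖(r : ℂ) + x‖ ∧ 2 * r - 1 ≤ ‖(2 * r : ℂ) + x‖ ∧
    0 ≤ ((r : ℂ) + x).re ∧ 0 ≤ ((r : ℂ) + x / 2).re := by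
  have hN' : (100 : ℝ) ≤ N := by exact_mod_cast hN
  have hr0 : 0 ≤ r := by linarith
  have e1 : ‖(r : ℂ)‖ = r := by rw [Complex.norm_real, Real.norm_eq_abs, abs_of_nonneg hr0]
  have e2 : ‖(2 * r : ℂ)‖ = 2 * r := by
    rw [norm_mul, e1]; simp
  have hre : |x.re| ≤ ‖x‖ := Complex.abs_re_le_norm x
  have h1 : -1 < x.re := by linarith [neg_abs_le x.re]
  refine ⟨?_, ?_, ?_, ?_, ?_⟩
  · refine (norm_add_le _ _).trans ?_
    linarith
  · have := norm_sub_norm_le (r : ℂ) (-x)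
    rw [sub_neg_eq_add, norm_neg] at this
    linarith
  · have := norm_sub_norm_le (2 * r : ℂ) (-x)
    rw [sub_neg_eq_add, norm_neg] at this
    linarith
  · simp only [Complex.add_re, Complex.ofReal_re]
    linarith
  · have : (x / 2).re = x.re / 2 := by simp
    simp only [Complex.add_re, Complex.ofReal_re, this]
    linarith

lemma integrand_eq (hN : 100 ≤ N) (hr1 : (N : ℝ) + 2 ≤ r) (hr2 : r ≤ 2 * N - 2) (hx : ‖x‖ < 1) :
    (v N ((r : ℂ) + x / 2) - v N ((r : ℂ) + x)).re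
      = Real.cos (N * Real.arcsin (|x.im| / ‖(2 * r : ℂ) + x‖))
        - Real.cos (N * Real.arcsin (|x.im| / ‖(r : ℂ) + x‖)) := by
  obtain ⟨g1, g2, g3, g4, g5⟩ := geom hN hr1 hx
  have hx2 : ‖x / 2‖ < 1 := by
    rw [norm_div]
    simp only [Complex.norm_ofNat]
    linarith [norm_nonneg x]
  obtain ⟨k1, k2, -, -, -⟩ := geom hN hr1 hx2
  rw [Complex.sub_re, re_v_eq (by linarith) (by linarith), re_v_eq (by linarith) (by linarith),
    cos_arg g5, cos_arg g4]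
  have e1 : |((r : ℂ) + x / 2).im| / ‖(r : ℂ) + x / 2‖ = |x.im| / ‖(2 * r : ℂ) + x‖ := by
    have h1 : (2 * r : ℂ) + x = 2 * ((r : ℂ) + x / 2) := by ring
    have h2 : ((r : ℂ) + x / 2).im = x.im / 2 := by simp
    rw [h1, norm_mul, h2, abs_div]
    simp only [Complex.norm_ofNat, Nat.abs_ofNat]
    rw [div_div]
  have e2 : |((r : ℂ) + x).im| / ‖(r : ℂ) + x‖ = |x.im| / ‖(r : ℂ) + x‖ := by
    simp
  rw [e1, e2]

lemma angles (hN : 100 ≤ N) (hr1 : (N : ℝ) + 2 ≤ r) (hx : ‖x‖ < 1) :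
    0 ≤ |x.im| / ‖(2 * r : ℂ) + x‖ ∧
    |x.im| / ‖(2 * r : ℂ) + x‖ ≤ |x.im| / ‖(r : ℂ) + x‖ ∧
    |x.im| / ‖(r : ℂ) + x‖ ≤ 1 / (N + 1) := by
  obtain ⟨g1, g2, g3, g4, g5⟩ := geom hN hr1 hx
  have hN' : (100 : ℝ) ≤ N := by exact_mod_cast hN
  have him : |x.im| ≤ 1 := (Complex.abs_im_le_norm x).trans hx.le
  have hpos : 0 < ‖(r : ℂ) + x‖ := by linarith
  refine ⟨by positivity, ?_, ?_⟩
  · exact div_le_div_of_nonneg_left (abs_nonneg _) hpos (norm_le_norm_two (by linarith) hx)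
  · exact div_le_div₀ zero_le_one him (by linarith) (by linarith)

lemma integrand_nonneg (hN : 100 ≤ N) (hr1 : (N : ℝ) + 2 ≤ r) (hr2 : r ≤ 2 * N - 2)
    (hx : ‖x‖ < 1) : 0 ≤ (v N ((r : ℂ) + x / 2) - v N ((r : ℂ) + x)).re := by
  rw [integrand_eq hN hr1 hr2 hx]
  obtain ⟨h0, h1, h2⟩ := angles hN hr1 hx
  have hN' : (100 : ℝ) ≤ N := by exact_mod_cast hN
  have hle1 : |x.im| / ‖(r : ℂ) + x‖ ≤ 1 := h2.trans (by rw [div_le_one (by linarith)]; linarith)
  have h3 : 0 ≤ Real.arcsin (|x.im| / ‖(2 * r : ℂ) + x‖) := Real.arcsin_nonneg.2 h0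
  have h4 : Real.arcsin (|x.im| / ‖(2 * r : ℂ) + x‖) ≤ Real.arcsin (|x.im| / ‖(r : ℂ) + x‖) :=
    Real.monotone_arcsin h1
  have h5 : N * Real.arcsin (|x.im| / ‖(r : ℂ) + x‖) ≤ π := by
    have h6 := arcsin_le (h0.trans h1) hle1
    calc N * Real.arcsin (|x.im| / ‖(r : ℂ) + x‖) ≤ N * (π / 2 * (1 / (N + 1))) := by gcongr; exact h6.trans (by gcongr)
      _ = π / 2 * (N / (N + 1)) := by ring
      _ ≤ π / 2 * 1 := by gcongr; rw [div_le_one (by linarith)]; linarith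
      _ ≤ π := by linarith [Real.pi_pos]
  have := Real.cos_le_cos_of_nonneg_of_le_pi (by positivity) h5 (by gcongr :
    N * Real.arcsin (|x.im| / ‖(2 * r : ℂ) + x‖) ≤ N * Real.arcsin (|x.im| / ‖(r : ℂ) + x‖))
  linarith

lemma integrand_lower (hN : 100 ≤ N) (hr1 : (N : ℝ) + 2 ≤ r) (hr2 : r ≤ 2 * N - 2)
    (hx : ‖x‖ < 1) (him : 1 / 2 ≤ x.im) :
    1 / 300 ≤ (v N ((r : ℂ) + x / 2) - v N ((r : ℂ) + x)).re := by
  rw [integrand_eq hN hr1 hr2 hx]
  obtain ⟨h0, h1, h2⟩ := angles hN hr1 hx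
  obtain ⟨g1, g2, g3, g4, g5⟩ := geom hN hr1 hx
  have hN' : (100 : ℝ) ≤ N := by exact_mod_cast hN
  have hpi := Real.pi_pos
  have habs : |x.im| = x.im := abs_of_pos (by linarith)
  rw [habs] at h0 h1 h2 ⊢
  set b : ℝ := x.im / ‖(r : ℂ) + x‖ with hb
  set a : ℝ := x.im / ‖(2 * r : ℂ) + x‖ with ha
  have hle1 : b ≤ 1 := h2.trans (by rw [div_le_one (by linarith)]; linarith)
  have hb0 : 0 ≤ b := h0.trans h1
  have ha1 : a ≤ 1 := h1.trans hle1
  set X : ℝ := N * Real.arcsin a with hX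
  set Y : ℝ := N * Real.arcsin b with hY
  have hX0 : 0 ≤ X := by
    have := Real.arcsin_nonneg.2 h0
    positivity
  have hXY : X ≤ Y := by
    rw [hX, hY]
    have := Real.monotone_arcsin h1
    gcongr
  have hYpi : Y ≤ π / 2 := by
    have h6 := arcsin_le hb0 hle1
    calc Y ≤ N * (π / 2 * (1 / (N + 1))) := by rw [hY]; gcongr; exact h6.trans (by gcongr)
      _ = π / 2 * (N / (N + 1)) := by ring
      _ ≤ π / 2 * 1 := by gcongr; rw [div_le_one (by linarith)]; linarith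
      _ = π / 2 := by ring
  have hXa : X ≤ π / 2 * (N * a) := by
    have := arcsin_le h0 ha1
    calc X ≤ N * (π / 2 * a) := by rw [hX]; gcongr
      _ = _ := by ring
  have hYb : N * b ≤ Y := by
    have := le_arcsin hb0 hle1
    rw [hY]
    gcongr
  have hcos : Real.cos X - Real.cos Y = 2 * Real.sin ((X + Y) / 2) * Real.sin ((Y - X) / 2) := by
    rw [Real.cos_sub_cos, show (X - Y) / 2 = -((Y - X) / 2) by ring, Real.sin_neg]
    ring
  have hs1 : 2 / π * ((X + Y) / 2) ≤ Real.sin ((X + Y) / 2) :=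
    Real.mul_le_sin (by linarith) (by linarith)
  have hs2 : 2 / π * ((Y - X) / 2) ≤ Real.sin ((Y - X) / 2) :=
    Real.mul_le_sin (by linarith) (by linarith)
  have hprod : 2 / π ^ 2 * (Y ^ 2 - X ^ 2) ≤ Real.cos X - Real.cos Y := by
    rw [hcos]
    have h3 : 0 ≤ 2 / π * ((Y - X) / 2) := by
      apply mul_nonneg (by positivity); linarith
    have h4 : 0 ≤ 2 / π * ((X + Y) / 2) := by
      apply mul_nonneg (by positivity); linarith
    have h5 := mul_le_mul hs1 hs2 h3 (h4.trans hs1)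
    have h6 : 2 / π ^ 2 * (Y ^ 2 - X ^ 2) = 2 * ((2 / π * ((X + Y) / 2)) * (2 / π * ((Y - X) / 2))) := by
      field_simp
      ring
    rw [h6]
    calc 2 * ((2 / π * ((X + Y) / 2)) * (2 / π * ((Y - X) / 2)))
        ≤ 2 * (Real.sin ((X + Y) / 2) * Real.sin ((Y - X) / 2)) := by linarith
      _ = _ := by ring
  refine le_trans ?_ hprod
  -- comparison of `a` and `b`
  have hab : a ≤ 51 / 100 * b := by
    rw [ha, hb]
    have hp1 : 0 < ‖(r : ℂ) + x‖ := by linarith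
    have hp2 : 0 < ‖(2 * r : ℂ) + x‖ := by linarith
    rw [← mul_div_assoc, div_le_div_iff₀ hp2 hp1]
    have h7 : ‖(r : ℂ) + x‖ ≤ 51 / 100 * ‖(2 * r : ℂ) + x‖ := by linarith
    calc x.im * ‖(r : ℂ) + x‖ ≤ x.im * (51 / 100 * ‖(2 * r : ℂ) + x‖) := by gcongr
      _ = _ := by ring
  have hbl : 1 / 4 ≤ N * b := by
    have h8 : 1 / (4 * N) ≤ b := by
      rw [hb]
      calc (1 : ℝ) / (4 * N) = (1 / 2) / (2 * N) := by field_simp; norm_num
        _ ≤ x.im / ‖(r : ℂ) + x‖ := by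
          apply div_le_div₀ (by linarith) him (by linarith) (by linarith)
    calc (1 : ℝ) / 4 = N * (1 / (4 * N)) := by field_simp
      _ ≤ N * b := by gcongr
  have hpi2 : π ^ 2 ≤ 9.87 := by
    have h9 := Real.pi_lt_d4
    nlinarith
  have hX2 : X ^ 2 ≤ 65 / 100 * (N * b) ^ 2 := by
    have h10 : X ^ 2 ≤ (π / 2 * (N * a)) ^ 2 := pow_le_pow_left₀ hX0 hXa 2
    have h11 : (N * a) ^ 2 ≤ (51 / 100 * (N * b)) ^ 2 := by
      apply pow_le_pow_left₀ (by positivity)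
      calc N * a ≤ N * (51 / 100 * b) := by gcongr
        _ = _ := by ring
    calc X ^ 2 ≤ (π / 2 * (N * a)) ^ 2 := h10
      _ = π ^ 2 / 4 * (N * a) ^ 2 := by ring
      _ ≤ 9.87 / 4 * (51 / 100 * (N * b)) ^ 2 := by gcongr
      _ ≤ 65 / 100 * (N * b) ^ 2 := by
        have : 0 ≤ (N * b) ^ 2 := by positivity
        nlinarith
  have hY2 : (N * b) ^ 2 ≤ Y ^ 2 := pow_le_pow_left₀ (by positivity) hYb 2
  have hfin : 35 / 100 * (1 / 16) ≤ Y ^ 2 - X ^ 2 := by nlinarith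
  have h12 : 2 / 9.87 ≤ 2 / π ^ 2 := by gcongr
  calc (1 : ℝ) / 300 ≤ 2 / 9.87 * (35 / 100 * (1 / 16)) := by norm_num
    _ ≤ 2 / π ^ 2 * (Y ^ 2 - X ^ 2) := by gcongr

end

lemma wr_lower {N : ℕ} (hN : 100 ≤ N) {r : ℝ} (hr1 : (N : ℝ) + 2 ≤ r) (hr2 : r ≤ 2 * N - 2) :
    π / 19200 ≤ wr N r := by
  have hN1 : 1 ≤ N := by omega
  unfold wr W
  have hint := integrable_W_integrand hN1 (r : ℂ)
  have h1 : (∫ x in ball (0 : ℂ) 1, (v N ((r : ℂ) + x / 2) - v N ((r : ℂ) + x))).re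
      = ∫ x in ball (0 : ℂ) 1, (v N ((r : ℂ) + x / 2) - v N ((r : ℂ) + x)).re := (integral_re hint).symm
  rw [h1]
  set E : Set ℂ := ball (((5 / 8 : ℝ) : ℂ) * Complex.I) (1 / 8) with hE
  have hEsub : E ⊆ ball (0 : ℂ) 1 := by
    intro x hx
    rw [hE, mem_ball, dist_eq_norm] at hx
    rw [mem_ball_zero_iff]
    have h2 : ‖((5 / 8 : ℝ) : ℂ) * Complex.I‖ = 5 / 8 := by
      rw [norm_mul, Complex.norm_real, Complex.norm_I, Real.norm_eq_abs]
      norm_num [abs_of_pos]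
    have h3 := norm_sub_norm_le x (((5 / 8 : ℝ) : ℂ) * Complex.I)
    linarith
  have hEim : ∀ x ∈ E, 1 / 2 ≤ x.im := by
    intro x hx
    rw [hE, mem_ball, dist_eq_norm] at hx
    have h2 := Complex.abs_im_le_norm (x - ((5 / 8 : ℝ) : ℂ) * Complex.I)
    have h3 : (x - ((5 / 8 : ℝ) : ℂ) * Complex.I).im = x.im - 5 / 8 := by
      simp
    rw [h3] at h2
    linarith [neg_abs_le (x.im - 5 / 8)]
  have hEm : MeasurableSet E := measurableSet_ball
  have hvol : (volume E).toReal = π / 64 := by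
    rw [hE, Complex.volume_ball, ENNReal.toReal_mul, ENNReal.toReal_pow,
      ENNReal.toReal_ofReal (by norm_num)]
    simp
    ring
  have h4 : ∫ x in E, (1 / 300 : ℝ) = π / 19200 := by
    rw [setIntegral_const, Measure.real, hvol, smul_eq_mul]
    ring
  rw [← h4]
  have h5 : ∫ x in E, (1 / 300 : ℝ)
      ≤ ∫ x in E, (v N ((r : ℂ) + x / 2) - v N ((r : ℂ) + x)).re := by
    apply setIntegral_mono_on
    · exact integrableOn_const (by rw [hE]; exact measure_ball_lt_top.ne)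
    · exact (hint.re.mono_measure (Measure.restrict_mono hEsub le_rfl))
    · exact hEm
    · intro x hx
      exact integrand_lower hN hr1 hr2 (mem_ball_zero_iff.1 (hEsub hx)) (hEim x hx)
  refine h5.trans ?_
  apply setIntegral_mono_set hint.re
  · rw [EventuallyLE, ae_restrict_iff' measurableSet_ball]
    refine Eventually.of_forall (fun x hx => ?_)
    exact integrand_nonneg hN hr1 hr2 (mem_ball_zero_iff.1 hx)
  · exact hEsub.eventuallyLE

end Pool.Agent.X93.BMO
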