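import Mathlib

/-! Polar coordinates for functions `φ(‖z‖) h(arg z)`, and a function in `L²` of the circle with
prescribed Fourier coefficients. -/

set_option autoImplicit false
set_option linter.unusedSectionVars false

open MeasureTheory Set Filter Topology
open scoped Real ENNReal ComplexConjugate

namespace Pool.Agent.X93.BMO

lemma polar_norm {p : ℝ × ℝ} (hp : p ∈ Ioi (0 : ℝ) ×ˢ Ioo (-π) π) :
    ‖Complex.polarCoord.symm p‖ = p.1 := by
  rw [Complex.norm_polarCoord_symm, abs_of_pos hp.1]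

lemma polar_arg {p : ℝ × ℝ} (hp : p ∈ Ioi (0 : ℝ) ×ˢ Ioo (-π) π) :
    Complex.arg (Complex.polarCoord.symm p) = p.2 := by
  rw [Complex.polarCoord_symm_apply]
  have h := Complex.arg_mul_cos_add_sin_mul_I hp.1 ⟨hp.2.1, hp.2.2.le⟩
  rw [← Complex.ofReal_cos, ← Complex.ofReal_sin] at h
  exact h

lemma integral_polar (φ h : ℝ → ℝ) :
    ∫ z : ℂ, φ ‖z‖ * h (Complex.arg z)
      = (∫ r in Ioi (0 : ℝ), r * φ r) * ∫ θ in Ioo (-π) π, h θ := by
  rw [← Complex.integral_comp_polarCoord_symm, ← setIntegral_prod_mul]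
  have h1 : polarCoord.target = Ioi (0 : ℝ) ×ˢ Ioo (-π) π := rfl
  rw [h1]
  apply setIntegral_congr_fun (measurableSet_Ioi.prod measurableSet_Ioo)
  intro p hp
  simp only [smul_eq_mul]
  rw [polar_norm hp, polar_arg hp]
  ring

lemma integrable_polar {φ h : ℝ → ℝ} (hφm : Measurable φ) (hhm : Measurable h)
    (hφ : IntegrableOn (fun r => r * φ r) (Ioi 0)) (hh : IntegrableOn h (Ioo (-π) π)) :
    Integrable (fun z : ℂ => φ ‖z‖ * h (Complex.arg z)) := by
  refine ⟨((hφm.comp measurable_norm).mul (hhm.comp Complex.measurable_arg)).aestronglyMeasurable,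
    ?_⟩
  unfold HasFiniteIntegral
  rw [← Complex.lintegral_comp_polarCoord_symm]
  have h1 : polarCoord.target = Ioi (0 : ℝ) ×ˢ Ioo (-π) π := rfl
  rw [h1]
  have h2 : ∫⁻ p in Ioi (0 : ℝ) ×ˢ Ioo (-π) π, ENNReal.ofReal p.1 •
      ‖φ ‖Complex.polarCoord.symm p‖ * h (Complex.arg (Complex.polarCoord.symm p))‖ₑ
      = ∫⁻ p in Ioi (0 : ℝ) ×ˢ Ioo (-π) π, ‖p.1 * φ p.1‖ₑ * ‖h p.2‖ₑ := by
    apply setLIntegral_congr_fun (measurableSet_Ioi.prod measurableSet_Ioo)
    intro p hp
    simp only [smul_eq_mul]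
    rw [polar_norm hp, polar_arg hp, enorm_mul, enorm_mul, Real.enorm_of_nonneg hp.1.le]
    ring
  rw [h2, Measure.volume_eq_prod, ← Measure.prod_restrict]
  rw [lintegral_prod_mul (f := fun r : ℝ => ‖r * φ r‖ₑ) (g := fun θ : ℝ => ‖h θ‖ₑ)
    (measurable_id.mul hφm).enorm.aemeasurable hhm.enorm.aemeasurable]
  exact ENNReal.mul_lt_top hφ.2 hh.2

/-! ### Existence of the angular part -/

instance fact2pi : Fact (0 < 2 * π) := ⟨by positivity⟩

/-- For every square summable family of real coefficients on positive frequencies there is a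
measurable square integrable function with these cosine coefficients. -/
lemma exists_angular (N : ℕ → ℕ) (hN : StrictMono N) (hN0 : 0 < N 0) (ε : ℕ → ℝ)
    (hε : Summable (fun i => ε i ^ 2)) :
    ∃ Om : ℝ → ℝ, Measurable Om ∧ IntegrableOn (fun θ => Om θ ^ 2) (Ioo (-π) π) ∧
      IntegrableOn Om (Ioo (-π) π) ∧
      ∫ θ in Ioo (-π) π, Om θ = 0 ∧
      ∀ i, ∫ θ in Ioo (-π) π, Om θ * Real.cos (N i * θ) = π * ε i := by
  classical
  set c : ℤ → ℂ := fun n => if h : ∃ i, n = (N i : ℤ) then ((ε h.choose : ℝ) : ℂ) else 0 with hc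
  have hcN : ∀ i, c (N i : ℤ) = ε i := by
    intro i
    have hex : ∃ j, ((N i : ℕ) : ℤ) = (N j : ℤ) := ⟨i, rfl⟩
    simp only [hc]
    rw [dif_pos hex]
    have h1 : N i = N hex.choose := by exact_mod_cast hex.choose_spec
    have h2 := hN.injective h1
    rw [← h2]
  have hc0 : ∀ n : ℤ, (∀ i, n ≠ (N i : ℤ)) → c n = 0 := by
    intro n hn
    simp only [hc]
    rw [dif_neg]
    push Not
    exact hn
  have hinj : Function.Injective (fun i => ((N i : ℕ) : ℤ)) := by
    intro i j hij
    have hij' : ((N i : ℕ) : ℤ) = ((N j : ℕ) : ℤ) := hij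
    exact hN.injective (by exact_mod_cast hij')
  have hsum : Summable (fun n : ℤ => ‖c n‖ ^ 2) := by
    rw [← Function.Injective.summable_iff hinj]
    · refine hε.congr (fun i => ?_)
      simp only [Function.comp_apply]
      rw [hcN, Complex.norm_real, Real.norm_eq_abs, sq_abs]
    · intro n hn
      rw [hc0 n (fun i hi => hn ⟨i, hi.symm⟩)]
      simp
  have hmem : Memℓp c 2 := by
    apply memℓp_gen
    simpa using hsum
  set F : Lp ℂ 2 (@AddCircle.haarAddCircle (2 * π) _) :=
    (@fourierBasis (2 * π) _).repr.symm ⟨c, hmem⟩ with hF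
  have hcoef : ∀ n : ℤ, fourierCoeff F n = c n := by
    intro n
    rw [← fourierBasis_repr, hF, LinearIsometryEquiv.apply_symm_apply]
  have hcoef2 : ∀ n : ℤ, c n = (1 / (2 * π)) • ∫ x in (-π)..π,
      (fourier (-n) (x : AddCircle (2 * π)) : ℂ) • F (x : AddCircle (2 * π)) := by
    intro n
    rw [← hcoef, fourierCoeff_eq_intervalIntegral _ _ (-π)]
    congr 2
    ring
  set G : ℝ → ℂ := fun θ => F (θ : AddCircle (2 * π)) with hG
  have hGm : Measurable G :=
    (Lp.stronglyMeasurable F).measurable.comp (AddCircle.measurable_mk' )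
  have hGL : MemLp G 2 (volume.restrict (Ioc (-π) π)) := by
    have h1 := AddCircle.measurePreserving_mk (2 * π) (-π)
    have h2 : (-π) + 2 * π = π := by ring
    rw [h2] at h1
    have h3 : MemLp F 2 (volume : Measure (AddCircle (2 * π))) := by
      rw [AddCircle.volume_eq_smul_haarAddCircle]
      exact (Lp.memLp F).smul_measure ENNReal.ofReal_ne_top
    exact h3.comp_measurePreserving h1
  have hGL2 : MemLp G 2 (volume.restrict (Ioo (-π) π)) :=
    hGL.mono_measure (Measure.restrict_mono Ioo_subset_Ioc_self le_rfl)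
  have hGi : Integrable G (volume.restrict (Ioo (-π) π)) := hGL2.integrable (by norm_num)
  have hOL : MemLp (fun θ => (G θ).re) 2 (volume.restrict (Ioo (-π) π)) := hGL2.re
  have hexp : ∀ n : ℤ, ∫ θ in Ioo (-π) π, Complex.exp (-(n * θ) * Complex.I) * G θ
      = 2 * π * c n := by
    intro n
    rw [hcoef2 n, intervalIntegral.integral_of_le (by linarith [Real.pi_pos]),
      integral_Ioc_eq_integral_Ioo]
    have h1 : ∀ θ : ℝ, (fourier (-n) (θ : AddCircle (2 * π)) : ℂ) • F (θ : AddCircle (2 * π))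
        = Complex.exp (-(n * θ) * Complex.I) * G θ := by
      intro θ
      rw [fourier_coe_apply, smul_eq_mul]
      congr 2
      push_cast
      have hpi : (π : ℂ) ≠ 0 := by exact_mod_cast Real.pi_ne_zero
      field_simp
    simp_rw [h1]
    rw [Complex.real_smul]
    push_cast
    have hpi : (π : ℂ) ≠ 0 := by exact_mod_cast Real.pi_ne_zero
    rw [← mul_assoc, mul_one_div_cancel (by simpa using hpi), one_mul]
  have hcos : ∀ n : ℕ, ∫ θ in Ioo (-π) π, (G θ).re * Real.cos (n * θ)
      = (π * (c n + c (-n))).re := by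
    intro n
    have hint : ∀ m : ℤ, Integrable (fun θ : ℝ => Complex.exp (-(m * θ) * Complex.I) * G θ)
        (volume.restrict (Ioo (-π) π)) := by
      intro m
      apply hGi.bdd_mul (c := 1)
      · have : Continuous (fun θ : ℝ => Complex.exp (-(m * θ) * Complex.I)) := by fun_prop
        exact this.aestronglyMeasurable
      · refine Eventually.of_forall (fun θ => ?_)
        have : (-(m * θ) * Complex.I : ℂ) = ((-(m * θ) : ℝ) : ℂ) * Complex.I := by push_cast; ring
        rw [this, Complex.norm_exp_ofReal_mul_I]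
    have h1 : ∫ θ in Ioo (-π) π, (Real.cos (n * θ) : ℂ) * G θ = π * (c n + c (-n)) := by
      have h2 : ∀ θ : ℝ, (Real.cos (n * θ) : ℂ) * G θ
          = (1 / 2 : ℂ) * (Complex.exp (-((n : ℤ) * θ) * Complex.I) * G θ
            + Complex.exp (-((-n : ℤ) * θ) * Complex.I) * G θ) := by
        intro θ
        rw [Complex.ofReal_cos, Complex.cos]
        push_cast
        ring_nf
      simp_rw [h2]
      rw [integral_const_mul, integral_add (hint n) (hint (-n)), hexp, hexp]
      push_cast
      ring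
    have h3 : Integrable (fun θ : ℝ => (Real.cos (n * θ) : ℂ) * G θ)
        (volume.restrict (Ioo (-π) π)) := by
      apply hGi.bdd_mul (c := 1)
      · have : Continuous (fun θ : ℝ => (Real.cos (n * θ) : ℂ)) := by fun_prop
        exact this.aestronglyMeasurable
      · refine Eventually.of_forall (fun θ => ?_)
        rw [Complex.norm_real]
        exact Real.abs_cos_le_one _
    rw [← h1]
    have h4 := integral_re h3
    have h5 : (∫ θ in Ioo (-π) π, (Real.cos (n * θ) : ℂ) * G θ).re
        = ∫ θ in Ioo (-π) π, ((Real.cos (n * θ) : ℂ) * G θ).re := h4.symm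
    rw [h5]
    congr 1
    ext θ
    rw [Complex.re_ofReal_mul]
    ring
  refine ⟨fun θ => (G θ).re, Complex.measurable_re.comp hGm, ?_, ?_, ?_, ?_⟩
  · exact hOL.integrable_sq
  · exact hOL.integrable (by norm_num)
  · have h1 := hcos 0
    have h2 : c 0 = 0 := hc0 0 (fun i hi => by
      have : 0 < N i := lt_of_lt_of_le hN0 (hN.monotone (Nat.zero_le i))
      omega)
    simpa [h2] using h1
  · intro i
    rw [hcos (N i), hcN i]
    have h2 : c (-(N i : ℤ)) = 0 := hc0 _ (fun j hj => by
      have : 0 < N i := lt_of_lt_of_le hN0 (hN.monotone (Nat.zero_le i))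
      omega)
    rw [h2]
    simp

end Pool.Agent.X93.BMO
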