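import Mathlib

/-! The building blocks `v N z = tr(‖z‖) (z/‖z‖)^N` and their difference of averages `W`. -/

set_option autoImplicit false
set_option linter.unusedSectionVars false

open MeasureTheory Set Filter Topology Metric
open scoped Real ENNReal ComplexConjugate

namespace Pool.Agent.X93.BMO

/-- trapezoidal cut-off -/
noncomputable def tr (N : ℕ) (ρ : ℝ) : ℝ := max 0 (min 1 (min (ρ - N) (2 * N - ρ)))

lemma tr_nonneg (N : ℕ) (ρ : ℝ) : 0 ≤ tr N ρ := le_max_left _ _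

lemma tr_le_one (N : ℕ) (ρ : ℝ) : tr N ρ ≤ 1 :=
  max_le zero_le_one (min_le_left _ _)

lemma tr_eq_one {N : ℕ} {ρ : ℝ} (h1 : (N : ℝ) + 1 ≤ ρ) (h2 : ρ ≤ 2 * N - 1) : tr N ρ = 1 := by
  unfold tr
  have h3 : (1 : ℝ) ≤ min (ρ - N) (2 * N - ρ) := le_min (by linarith) (by linarith)
  rw [min_eq_left h3]
  norm_num

lemma tr_eq_zero {N : ℕ} {ρ : ℝ} (h : ρ ≤ N ∨ 2 * (N : ℝ) ≤ ρ) : tr N ρ = 0 := by
  unfold tr
  apply max_eq_left
  rcases h with h | h
  · exact (min_le_right _ _).trans ((min_le_left _ _).trans (by linarith))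
  · exact (min_le_right _ _).trans ((min_le_right _ _).trans (by linarith))

lemma tr_lip (N : ℕ) (a b : ℝ) : |tr N a - tr N b| ≤ |a - b| := by
  unfold tr
  have h1 : ∀ x y : ℝ, |max 0 x - max 0 y| ≤ |x - y| := by
    intro x y
    simpa using abs_max_sub_max_le_max 0 x 0 y
  have h2 : ∀ x y : ℝ, |min 1 x - min 1 y| ≤ |x - y| := by
    intro x y
    simpa using abs_min_sub_min_le_max 1 x 1 y
  refine (h1 _ _).trans ((h2 _ _).trans ?_)
  refine (abs_min_sub_min_le_max _ _ _ _).trans ?_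
  apply max_le
  · rw [show a - N - (b - N) = a - b by ring]
  · rw [show 2 * (N : ℝ) - a - (2 * N - b) = -(a - b) by ring, abs_neg]

/-- the building block -/
noncomputable def v (N : ℕ) (z : ℂ) : ℂ := (tr N ‖z‖ : ℂ) * (z / (‖z‖ : ℂ)) ^ N

lemma norm_unit_le (z : ℂ) : ‖z / (‖z‖ : ℂ)‖ ≤ 1 := by
  rw [norm_div, Complex.norm_real, norm_norm]
  exact div_self_le_one _

lemma norm_v_le (N : ℕ) (z : ℂ) : ‖v N z‖ ≤ tr N ‖z‖ := by
  unfold v
  rw [norm_mul, norm_pow, Complex.norm_real, Real.norm_eq_abs, abs_of_nonneg (tr_nonneg _ _)]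
  exact mul_le_of_le_one_right (tr_nonneg _ _) (pow_le_one₀ (norm_nonneg _) (norm_unit_le z))

lemma norm_v_le_one (N : ℕ) (z : ℂ) : ‖v N z‖ ≤ 1 := (norm_v_le N z).trans (tr_le_one _ _)

lemma v_rot (N : ℕ) {a : ℂ} (ha : ‖a‖ = 1) (z : ℂ) : v N (a * z) = a ^ N * v N z := by
  unfold v
  rw [norm_mul, ha, one_mul, mul_div_assoc, mul_pow]
  ring

lemma v_conj (N : ℕ) (z : ℂ) : v N (conj z) = conj (v N z) := by
  unfold v
  rw [map_mul, map_pow, map_div₀, Complex.conj_ofReal, Complex.conj_ofReal, Complex.norm_conj]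

lemma v_zero_of {N : ℕ} {z : ℂ} (h : ‖z‖ ≤ N ∨ 2 * (N : ℝ) ≤ ‖z‖) : v N z = 0 := by
  unfold v
  rw [tr_eq_zero h]
  simp

lemma norm_pow_sub_le (a b : ℂ) (ha : ‖a‖ ≤ 1) (hb : ‖b‖ ≤ 1) (n : ℕ) :
    ‖a ^ n - b ^ n‖ ≤ n * ‖a - b‖ := by
  induction n with
  | zero => simp
  | succ n ih =>
    have h1 : a ^ (n + 1) - b ^ (n + 1) = a ^ n * (a - b) + (a ^ n - b ^ n) * b := by ring
    rw [h1]
    refine (norm_add_le _ _).trans ?_
    rw [norm_mul, norm_mul, norm_pow]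
    have h2 : ‖a‖ ^ n * ‖a - b‖ ≤ ‖a - b‖ :=
      mul_le_of_le_one_left (norm_nonneg _) (pow_le_one₀ (norm_nonneg _) ha)
    have h3 : ‖a ^ n - b ^ n‖ * ‖b‖ ≤ n * ‖a - b‖ :=
      (mul_le_of_le_one_right (norm_nonneg _) hb).trans ih
    push_cast
    linarith

lemma unit_lip (z w : ℂ) (hw : 1 ≤ ‖w‖) : ‖z / (‖z‖ : ℂ) - w / (‖w‖ : ℂ)‖ ≤ 2 * ‖z - w‖ := by
  have hw0 : (‖w‖ : ℂ) ≠ 0 := by
    have : ‖w‖ ≠ 0 := by linarith
    exact_mod_cast this
  have h1 : z / (‖z‖ : ℂ) - w / (‖w‖ : ℂ)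
      = (z / (‖z‖ : ℂ)) * (((‖w‖ - ‖z‖ : ℝ) : ℂ) / (‖w‖ : ℂ)) + (z - w) / (‖w‖ : ℂ) := by
    by_cases hz : z = 0
    · simp [hz]
      ring
    · have hz0 : (‖z‖ : ℂ) ≠ 0 := by
        have : ‖z‖ ≠ 0 := norm_ne_zero_iff.2 hz
        exact_mod_cast this
      field_simp
      push_cast
      ring
  rw [h1]
  refine (norm_add_le _ _).trans ?_
  rw [norm_mul, norm_div _ (‖w‖ : ℂ), norm_div _ (‖w‖ : ℂ), Complex.norm_real, Complex.norm_real,
    norm_norm, Real.norm_eq_abs]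
  have h2 : |‖w‖ - ‖z‖| ≤ ‖z - w‖ := by
    rw [abs_sub_comm]
    exact abs_norm_sub_norm_le z w
  have h3 : |‖w‖ - ‖z‖| / ‖w‖ ≤ ‖z - w‖ := by
    rw [div_le_iff₀ (by linarith)]
    nlinarith [norm_nonneg (z - w)]
  have h4 : ‖z - w‖ / ‖w‖ ≤ ‖z - w‖ := div_le_self (norm_nonneg _) hw
  have h5 : ‖z / (‖z‖ : ℂ)‖ * (|‖w‖ - ‖z‖| / ‖w‖) ≤ ‖z - w‖ :=
    (mul_le_of_le_one_left (by positivity) (norm_unit_le z)).trans h3
  linarith

lemma v_lip {N : ℕ} (hN : 1 ≤ N) (z w : ℂ) : ‖v N z - v N w‖ ≤ (1 + 2 * N) * ‖z - w‖ := by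
  have h1 : v N z - v N w = ((tr N ‖z‖ - tr N ‖w‖ : ℝ) : ℂ) * (z / (‖z‖ : ℂ)) ^ N
      + (tr N ‖w‖ : ℂ) * ((z / (‖z‖ : ℂ)) ^ N - (w / (‖w‖ : ℂ)) ^ N) := by
    unfold v
    push_cast
    ring
  rw [h1]
  refine (norm_add_le _ _).trans ?_
  rw [norm_mul, norm_mul, norm_pow, Complex.norm_real, Complex.norm_real, Real.norm_eq_abs,
    Real.norm_eq_abs, abs_of_nonneg (tr_nonneg N ‖w‖)]
  have h2 : |tr N ‖z‖ - tr N ‖w‖| * ‖z / (‖z‖ : ℂ)‖ ^ N ≤ ‖z - w‖ :=
    (mul_le_of_le_one_right (abs_nonneg _) (pow_le_one₀ (norm_nonneg _) (norm_unit_le z))).trans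
      ((tr_lip _ _ _).trans (abs_norm_sub_norm_le z w))
  have h3 : tr N ‖w‖ * ‖(z / (‖z‖ : ℂ)) ^ N - (w / (‖w‖ : ℂ)) ^ N‖ ≤ 2 * N * ‖z - w‖ := by
    by_cases hw : 1 ≤ ‖w‖
    · have h4 := norm_pow_sub_le _ _ (norm_unit_le z) (norm_unit_le w) N
      have h5 := unit_lip z w hw
      calc tr N ‖w‖ * ‖(z / (‖z‖ : ℂ)) ^ N - (w / (‖w‖ : ℂ)) ^ N‖
          ≤ ‖(z / (‖z‖ : ℂ)) ^ N - (w / (‖w‖ : ℂ)) ^ N‖ :=
            mul_le_of_le_one_left (norm_nonneg _) (tr_le_one _ _)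
        _ ≤ N * ‖z / (‖z‖ : ℂ) - w / (‖w‖ : ℂ)‖ := h4
        _ ≤ N * (2 * ‖z - w‖) := by gcongr
        _ = 2 * N * ‖z - w‖ := by ring
    · have hN' : (1 : ℝ) ≤ N := by exact_mod_cast hN
      have : tr N ‖w‖ = 0 := tr_eq_zero (Or.inl (by linarith [not_le.1 hw]))
      rw [this, zero_mul]
      positivity
  linarith

lemma continuous_v {N : ℕ} (hN : 1 ≤ N) : Continuous (v N) := by
  have h : LipschitzWith (Real.toNNReal (1 + 2 * N)) (v N) := by
    apply LipschitzWith.of_dist_le_mul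
    intro x y
    rw [Real.coe_toNNReal _ (by positivity), dist_eq_norm, dist_eq_norm]
    exact v_lip hN x y
  exact h.continuous

/-- difference of averages over the discs of radius `1/2` and `1` (not normalized) -/
noncomputable def W (N : ℕ) (z : ℂ) : ℂ := ∫ x in ball (0 : ℂ) 1, (v N (z + x / 2) - v N (z + x))

lemma volume_ball_one : (volume (ball (0 : ℂ) 1)).toReal = π := by
  rw [Complex.volume_ball]
  simp

instance : IsFiniteMeasure (volume.restrict (ball (0 : ℂ) 1)) :=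
  ⟨by rw [Measure.restrict_apply_univ]; exact measure_ball_lt_top⟩

lemma integrable_W_integrand {N : ℕ} (hN : 1 ≤ N) (z : ℂ) :
    Integrable (fun x : ℂ => v N (z + x / 2) - v N (z + x)) (volume.restrict (ball (0 : ℂ) 1)) := by
  have hc := continuous_v hN
  refine Integrable.mono' (integrable_const (2 : ℝ)) ?_ ?_
  · have : Continuous (fun x : ℂ => v N (z + x / 2) - v N (z + x)) := by fun_prop
    exact this.aestronglyMeasurable
  · refine Eventually.of_forall (fun x => ?_)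
    refine (norm_sub_le _ _).trans ?_
    linarith [norm_v_le_one N (z + x / 2), norm_v_le_one N (z + x)]

lemma norm_W_le (N : ℕ) (z : ℂ) : ‖W N z‖ ≤ 2 * π := by
  unfold W
  have h1 := norm_setIntegral_le_of_norm_le_const (μ := volume) (s := ball (0 : ℂ) 1) (C := 2)
    (f := fun x : ℂ => v N (z + x / 2) - v N (z + x)) measure_ball_lt_top (fun x _ => by
      refine (norm_sub_le _ _).trans ?_
      linarith [norm_v_le_one N (z + x / 2), norm_v_le_one N (z + x)])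
  rw [Measure.real, volume_ball_one] at h1
  exact h1

lemma W_rot (N : ℕ) {a : ℂ} (ha : ‖a‖ = 1) (z : ℂ) : W N (a * z) = a ^ N * W N z := by
  unfold W
  rw [← integral_const_mul]
  set c : Circle := ⟨a, mem_sphere_zero_iff_norm.2 ha⟩ with hc
  have hmp : MeasurePreserving (rotation c) volume volume :=
    (rotation c).measurePreserving
  have hemb : MeasurableEmbedding (rotation c) := (rotation c).toHomeomorph.measurableEmbedding
  have hpre : (rotation c) ⁻¹' (ball (0 : ℂ) 1) = ball (0 : ℂ) 1 := by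
    ext x
    rw [mem_preimage, mem_ball_zero_iff, mem_ball_zero_iff, LinearIsometryEquiv.norm_map]
  rw [← hmp.setIntegral_preimage_emb hemb, hpre]
  congr 1
  ext x
  have h1 : rotation c x = a * x := by rw [rotation_apply]
  rw [h1, show a * z + a * x / 2 = a * (z + x / 2) by ring,
    show a * z + a * x = a * (z + x) by ring, v_rot N ha, v_rot N ha]
  ring

lemma W_conj (N : ℕ) (z : ℂ) : W N (conj z) = conj (W N z) := by
  unfold W
  rw [← integral_conj]
  have hmp : MeasurePreserving Complex.conjLIE volume volume := Complex.conjLIE.measurePreserving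
  have hemb : MeasurableEmbedding Complex.conjLIE := Complex.conjLIE.toHomeomorph.measurableEmbedding
  have hpre : Complex.conjLIE ⁻¹' (ball (0 : ℂ) 1) = ball (0 : ℂ) 1 := by
    ext x
    rw [mem_preimage, mem_ball_zero_iff, mem_ball_zero_iff, LinearIsometryEquiv.norm_map]
  rw [← hmp.setIntegral_preimage_emb hemb, hpre]
  congr 1
  ext x
  have h1 : Complex.conjLIE x = conj x := rfl
  rw [h1, show conj z + conj x / 2 = conj (z + x / 2) by
    rw [map_add, map_div₀, Complex.conj_ofNat], show conj z + conj x = conj (z + x) by rw [map_add],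
    v_conj, v_conj, map_sub]

lemma W_real_im (N : ℕ) (r : ℝ) : (W N (r : ℂ)).im = 0 := by
  have h1 := W_conj N (r : ℂ)
  rw [Complex.conj_ofReal] at h1
  exact Complex.conj_eq_iff_im.1 h1.symm

/-- the radial profile -/
noncomputable def wr (N : ℕ) (r : ℝ) : ℝ := (W N (r : ℂ)).re

lemma W_re (N : ℕ) (y : ℂ) : (W N y).re = Real.cos (N * Complex.arg y) * wr N ‖y‖ := by
  have h1 : y = Complex.exp (Complex.arg y * Complex.I) * (‖y‖ : ℂ) := by
    rw [mul_comm]
    exact (Complex.norm_mul_exp_arg_mul_I y).symm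
  have h2 : W N y = Complex.exp (Complex.arg y * Complex.I) ^ N * W N (‖y‖ : ℂ) := by
    conv_lhs => rw [h1]
    exact W_rot N (Complex.norm_exp_ofReal_mul_I _) _
  rw [h2, Complex.mul_re, W_real_im, mul_zero, sub_zero, ← Complex.exp_nat_mul]
  have h3 : ((N : ℂ) * (Complex.arg y * Complex.I)) = ((N * Complex.arg y : ℝ) : ℂ) * Complex.I := by
    push_cast; ring
  rw [h3, Complex.exp_ofReal_mul_I_re]
  rfl

lemma W_neg {N : ℕ} (hN : Even N) (z : ℂ) : W N (-z) = W N z := by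
  have h1 := W_rot N (a := -1) (by simp) z
  rw [hN.neg_one_pow, one_mul, neg_one_mul] at h1
  exact h1

lemma W_eq_zero {N : ℕ} {z : ℂ} (h : ‖z‖ ≤ N - 1 ∨ 2 * (N : ℝ) + 1 ≤ ‖z‖) : W N z = 0 := by
  unfold W
  apply integral_eq_zero_of_ae
  rw [EventuallyEq, ae_restrict_iff' measurableSet_ball]
  refine Eventually.of_forall (fun x hx => ?_)
  have hx1 : ‖x‖ < 1 := by simpa using hx
  have hx2 : ‖x / 2‖ < 1 := by
    rw [norm_div]
    simp only [Complex.norm_ofNat]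
    linarith
  have key : ∀ y : ℂ, ‖y‖ < 1 → v N (z + y) = 0 := by
    intro y hy
    apply v_zero_of
    rcases h with h | h
    · left
      exact (norm_add_le _ _).trans (by linarith)
    · right
      have := norm_sub_norm_le z (-y)
      rw [sub_neg_eq_add, norm_neg] at this
      linarith
  rw [key _ hx2, key _ hx1]
  simp

lemma W_lip {N : ℕ} (hN : 1 ≤ N) (z w : ℂ) :
    ‖W N z - W N w‖ ≤ (2 * (1 + 2 * N) * π) * ‖z - w‖ := by
  unfold W
  rw [← integral_sub (integrable_W_integrand hN z) (integrable_W_integrand hN w)]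
  have h1 := norm_setIntegral_le_of_norm_le_const (μ := volume) (s := ball (0 : ℂ) 1)
    (C := 2 * (1 + 2 * N) * ‖z - w‖)
    (f := fun x : ℂ => (v N (z + x / 2) - v N (z + x)) - (v N (w + x / 2) - v N (w + x)))
    measure_ball_lt_top (fun x _ => by
      have e1 := v_lip hN (z + x / 2) (w + x / 2)
      have e2 := v_lip hN (z + x) (w + x)
      rw [show z + x / 2 - (w + x / 2) = z - w by ring] at e1
      rw [show z + x - (w + x) = z - w by ring] at e2
      have e3 : (v N (z + x / 2) - v N (z + x)) - (v N (w + x / 2) - v N (w + x))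
          = (v N (z + x / 2) - v N (w + x / 2)) - (v N (z + x) - v N (w + x)) := by ring
      rw [e3]
      refine (norm_sub_le _ _).trans ?_
      linarith)
  rw [Measure.real, volume_ball_one] at h1
  refine h1.trans (le_of_eq ?_)
  ring

lemma continuous_W {N : ℕ} (hN : 1 ≤ N) : Continuous (W N) := by
  have h : LipschitzWith (Real.toNNReal (2 * (1 + 2 * N) * π)) (W N) := by
    apply LipschitzWith.of_dist_le_mul
    intro x y
    rw [Real.coe_toNNReal _ (by positivity), dist_eq_norm, dist_eq_norm]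
    exact W_lip hN x y
  exact h.continuous

lemma continuous_wr {N : ℕ} (hN : 1 ≤ N) : Continuous (wr N) :=
  Complex.continuous_re.comp ((continuous_W hN).comp Complex.continuous_ofReal)

lemma abs_wr_le (N : ℕ) (r : ℝ) : |wr N r| ≤ 2 * π :=
  (Complex.abs_re_le_norm _).trans (norm_W_le N _)

lemma wr_eq_zero {N : ℕ} {r : ℝ} (hr : 0 ≤ r) (h : r ≤ N - 1 ∨ 2 * (N : ℝ) + 1 ≤ r) :
    wr N r = 0 := by
  unfold wr
  rw [W_eq_zero]
  · rfl
  · rwa [Complex.norm_real, Real.norm_eq_abs, abs_of_nonneg hr]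

end Pool.Agent.X93.BMO
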